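import Mathlib
import Pool.Agent.H759R2.Kad.Props3

/-! Task 21 of the Kadison project (part 3): the generic bound (helper847). -/

open scoped ComplexOrder InnerProductSpace ComplexConjugate
open Finset

noncomputable section

namespace H759R2.Kad

universe u v

namespace A21

section diag

variable (B : Type u) [CStarAlgebra B] {ι : Type} [Fintype ι] [DecidableEq ι]

/-- Diagonal matrices with scalar entries, as a *-homomorphism. -/
def dhom [PartialOrder B] [StarOrderedRing B] : (ι → ℂ) →⋆ₐ[ℂ] CStarMatrix ι ι B where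
  toFun d := CStarMatrix.ofMatrix (Matrix.diagonal fun c => algebraMap ℂ B (d c))
  map_one' := by
    ext i j
    by_cases h : i = j
    · subst h; simp
    · simp [h]
  map_mul' f g := by
    ext i j
    rw [CStarMatrix.mul_apply]
    by_cases h : i = j
    · subst h
      rw [Finset.sum_eq_single i]
      · simp
      · intro b _ hb
        simp [Matrix.diagonal_apply_ne _ (Ne.symm hb)]
      · simp
    · rw [Finset.sum_eq_single i]
      · simp [h]
      · intro b _ hb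
        simp [Matrix.diagonal_apply_ne _ (Ne.symm hb)]
      · simp
  map_zero' := by
    ext i j
    by_cases h : i = j
    · subst h; simp
    · simp [h]
  map_add' f g := by
    ext i j
    by_cases h : i = j
    · subst h; simp
    · simp [h]
  commutes' c := by
    ext i j
    by_cases h : i = j
    · subst h; simp [CStarMatrix.algebraMap_apply]
    · simp [h, CStarMatrix.algebraMap_apply]
  map_star' f := by
    ext i j
    by_cases h : i = j
    · subst h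
      simp [CStarMatrix.star_apply, Algebra.algebraMap_eq_smul_one]
    · simp [h, CStarMatrix.star_apply, Ne.symm h]

variable [PartialOrder B] [StarOrderedRing B]

theorem dgc_eq (d : ι → ℝ) : dgc B d = dhom B (fun c => (d c : ℂ)) := rfl

theorem norm_dgc_le (d : ι → ℝ) (κ : ℝ) (hκ : 0 ≤ κ) (h : ∀ c, |d c| ≤ κ) :
    ‖dgc B d‖ ≤ κ := by
  rw [dgc_eq]
  refine (NonUnitalStarAlgHom.norm_apply_le (dhom (ι := ι) B) _).trans ?_
  rw [pi_norm_le_iff_of_nonneg hκ]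
  intro c
  rw [Complex.norm_real, Real.norm_eq_abs]
  exact h c

theorem dgc_sub (d e : ι → ℝ) : dgc B d - dgc B e = dgc B (fun c => d c - e c) := by
  rw [dgc_eq, dgc_eq, dgc_eq, ← map_sub]
  congr 1
  funext c
  simp

theorem dgc_sum {α : Type*} (s : Finset α) (d : α → ι → ℝ) :
    ∑ a ∈ s, dgc B (d a) = dgc B (fun c => ∑ a ∈ s, d a c) := by
  simp only [dgc_eq]
  rw [← map_sum]
  congr 1
  funext c
  simp

theorem dgc_one : dgc B (fun _ : ι => (1 : ℝ)) = 1 := by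
  rw [dgc_eq, ← map_one (dhom (ι := ι) B)]
  congr 1

end diag

section freq

variable {n : ℕ}

theorem ind_inj (R : ℕ) (hR : 1 < R) {M M' : Finset (Fin n)} (h : ind R M = ind R M') :
    M = M' := by
  have : Fact (1 < R) := ⟨hR⟩
  ext c
  have hc := congrFun h c
  unfold ind at hc
  by_cases h1 : c ∈ M <;> by_cases h2 : c ∈ M' <;> simp_all

theorem freq_ne_zero (R k : ℕ) (hR : k + 1 < R) (σ : Fin (k + 1) → Fin n) (j : Fin n)
    (hj : σ (Fin.last k) = j) : freq R σ j ≠ 0 := by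
  unfold freq
  intro h
  rw [ZMod.natCast_eq_zero_iff] at h
  have h1 : 0 < (univ.filter fun t => σ t = j).card :=
    Finset.card_pos.mpr ⟨Fin.last k, by simp [hj]⟩
  have h2 : (univ.filter fun t => σ t = j).card ≤ k + 1 := by
    calc (univ.filter fun t => σ t = j).card ≤ (univ : Finset (Fin (k + 1))).card :=
          Finset.card_filter_le _ _
      _ = k + 1 := by simp
  have h3 := Nat.le_of_dvd h1 h
  omega

variable {B : Type u} [CStarAlgebra B]

theorem Yf_col (x : CStarMatrix (Fin n) (Fin n) B) (g : Fin n → unitary B) (R k : ℕ)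
    (hR : k + 1 < R) (M : Finset (Fin n)) (i j : Fin n) (hj : j ∉ M) :
    Yf x g R k (ind R M) i j = 0 := by
  show ∑ σ : Fin (k + 1) → Fin n,
    (if σ 0 = i ∧ σ (Fin.last k) = j ∧ freq R σ = ind R M then sword x g σ else 0) = 0
  refine Finset.sum_eq_zero fun σ _ => ?_
  rw [if_neg]
  rintro ⟨_, h2, h3⟩
  have := freq_ne_zero R k hR σ j h2
  apply this
  rw [h3]
  simp [ind, hj]

end freq

theorem card_le (n k : ℕ) :
    ((univ.filter fun M : Finset (Fin n) => M.card = k + 1).card : ℝ) ≤ (n : ℝ) ^ (k + 1) := by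
  have h : (univ.filter fun M : Finset (Fin n) => M.card = k + 1) =
      (univ : Finset (Fin n)).powersetCard (k + 1) := by
    ext M
    simp [Finset.mem_powersetCard]
  rw [h, Finset.card_powersetCard, Finset.card_univ, Fintype.card_fin]
  exact_mod_cast Nat.choose_le_pow n (k + 1)

theorem star_smul_mul {D : Type*} [CStarAlgebra D] (N : ℕ) (y Y : D) (hy : y ∈ unitary D) :
    star ((((Real.sqrt N)⁻¹ : ℝ) : ℂ) • (y * Y)) * ((((Real.sqrt N)⁻¹ : ℝ) : ℂ) • (y * Y)) =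
      (N : ℂ)⁻¹ • (star Y * Y) := by
  rw [star_smul, smul_mul_smul_comm, star_mul, mul_assoc (star Y), ← mul_assoc (star y),
    (Unitary.mem_iff.mp hy).1, one_mul]
  congr 1
  rw [Complex.star_def, Complex.conj_ofReal, ← Complex.ofReal_mul, ← mul_inv,
    Real.mul_self_sqrt (Nat.cast_nonneg N)]
  push_cast
  rfl

theorem norm_sq_smul {E : Type*} [NormedAddCommGroup E] [NormedSpace ℂ E] (N : ℕ) (v : E) :
    ‖(((Real.sqrt N)⁻¹ : ℝ) : ℂ) • v‖ ^ 2 = (N : ℝ)⁻¹ * ‖v‖ ^ 2 := by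
  rw [norm_smul, mul_pow, Complex.norm_real, Real.norm_eq_abs, sq_abs, inv_pow,
    Real.sq_sqrt (Nat.cast_nonneg N)]

section steps

variable {B : Type u} [CStarAlgebra B] [PartialOrder B] [StarOrderedRing B]
  {K : Type v} [NormedAddCommGroup K] [InnerProductSpace ℂ K] [CompleteSpace K]
  {n : ℕ}

omit [PartialOrder B] [StarOrderedRing B] [CompleteSpace K] in
theorem amp_smul_norm_sq (w : B →ₗ[ℂ] (K →L[ℂ] K)) (N : ℕ) (X : CStarMatrix (Fin n) (Fin n) B)
    (θ : HH (Fin n) K) :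
    ‖amp w (Fin n) ((((Real.sqrt N)⁻¹ : ℝ) : ℂ) • X) θ‖ ^ 2 =
      (N : ℝ)⁻¹ * ‖amp w (Fin n) X θ‖ ^ 2 := by
  rw [map_smul, smul_apply, norm_sq_smul]

theorem step1 (h3 : K_wcol.{u, v}) (w : B →ₗ[ℂ] (K →L[ℂ] K)) (τ : B →ₗ[ℂ] ℂ) (hw : IsHom w)
    (hτ : IsTracialState τ) (hD : HasDixmier τ) (c γ : ℝ) (hc : 0 ≤ c) (hγ : 0 ≤ γ)
    (hwc : ∀ b, ‖w b‖ ≤ c * ‖b‖) (L : ℕ) (hL : LvlBd w L γ) (R k : ℕ) (hk : k + 1 ≤ L)
    (hR : k + 1 < R) (Ω : Type) [Fintype Ω] [Nonempty Ω] (G : Ω → Fin n → unitary B)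
    (x y : CStarMatrix (Fin n) (Fin n) B) (hy : y ∈ unitary (CStarMatrix (Fin n) (Fin n) B))
    (ε : ℝ) (hε : 0 < ε) (lam : Fin n → ℝ) (hlam : ∀ j, 0 ≤ lam j)
    (M : Finset (Fin n)) (hM : M.card = k + 1)
    (hG : ‖fav Ω (fun s => star (Yf x (G s) R k (ind R M)) * Yf x (G s) R k (ind R M)) -
        dgc B (fun j => if j ∈ M then lam j else 0)‖ ≤ ε) (θ : HH (Fin n) K) :
    ∑ s, ‖amp w (Fin n) (y * Yf x (G s) R k (ind R M)) θ‖ ^ 2 ≤
      (Fintype.card Ω : ℝ) * (6 * c ^ 2 * γ ^ 2 * ∑ j ∈ M, (lam j + ε) * ‖θ j‖ ^ 2) := by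
  have hN : (0 : ℝ) < Fintype.card Ω := by exact_mod_cast Fintype.card_pos
  have h := h3 B K w τ hw hτ hD c γ hc hγ hwc L hL (Fin n) M (by omega) Ω
    (fun s => (((Real.sqrt (Fintype.card Ω : ℕ))⁻¹ : ℝ) : ℂ) •
      (y * Yf x (G s) R k (ind R M)))
    (by
      intro s i j hj
      rw [CStarMatrix.smul_apply, CStarMatrix.mul_apply, Finset.sum_eq_zero, smul_zero]
      intro l _
      rw [Yf_col x (G s) R k hR M l j hj, mul_zero])
    lam ε hlam hε
    (by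
      have e : ∑ s, star ((((Real.sqrt (Fintype.card Ω : ℕ))⁻¹ : ℝ) : ℂ) •
          (y * Yf x (G s) R k (ind R M))) * ((((Real.sqrt (Fintype.card Ω : ℕ))⁻¹ : ℝ) : ℂ) •
          (y * Yf x (G s) R k (ind R M))) =
          fav Ω (fun s => star (Yf x (G s) R k (ind R M)) * Yf x (G s) R k (ind R M)) := by
        unfold fav
        rw [Finset.smul_sum]
        exact Finset.sum_congr rfl fun s _ => star_smul_mul _ _ _ hy
      rw [e]
      exact hG)
    θ
  simp only [amp_smul_norm_sq] at h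
  rw [← Finset.mul_sum, inv_mul_le_iff₀ hN] at h
  exact h

/-- The sets of `k + 1` letters. -/
def Ps (n k : ℕ) : Finset (Finset (Fin n)) := univ.filter fun M => M.card = k + 1

/-- Their indicators. -/
def Ss (n k R : ℕ) : Finset (Fin n → ZMod R) := (Ps n k).image (ind R)

theorem sum_Ss {V : Type*} [AddCommMonoid V] (k R : ℕ) (hR : 1 < R) (g : (Fin n → ZMod R) → V) :
    ∑ f ∈ Ss n k R, g f = ∑ M ∈ Ps n k, g (ind R M) := by
  unfold Ss
  rw [Finset.sum_image]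
  intro M _ M' _ h
  exact ind_inj R hR h

omit [PartialOrder B] [StarOrderedRing B] in
theorem sum_split {V : Type*} [AddCommMonoid V] (k R : ℕ) [NeZero R]
    (g : (Fin n → ZMod R) → V) :
    ∑ f, g f = ∑ f ∈ Ss n k R, g f + ∑ f ∈ univ.filter (fun f => f ∉ Ss n k R), g f := by
  rw [← Finset.sum_filter_add_sum_filter_not univ (fun f => f ∈ Ss n k R)]
  congr 1
  refine Finset.sum_congr ?_ fun _ _ => rfl
  ext f
  simp

theorem norm_rest (k R : ℕ) (hR : 1 < R) [NeZero R] (Ω : Type) [Fintype Ω] [Nonempty Ω]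
    (Y : Ω → (Fin n → ZMod R) → CStarMatrix (Fin n) (Fin n) B)
    (h1 : ∀ s, ∑ f, star (Y s f) * Y s f = 1) (ε κ : ℝ) (hε : 0 < ε) (hκ : 0 ≤ κ)
    (lam : Finset (Fin n) → Fin n → ℝ)
    (hG2 : ∀ M : Finset (Fin n), M.card = k + 1 →
      ‖fav Ω (fun s => star (Y s (ind R M)) * Y s (ind R M)) -
        dgc B (fun j => if j ∈ M then lam M j else 0)‖ ≤ ε)
    (hG3 : ∀ j, ∑ M ∈ univ.filter (fun M : Finset (Fin n) => M.card = k + 1 ∧ j ∈ M),
      lam M j ≤ 1)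
    (hG4 : ∀ j, 1 - κ ≤ ∑ M ∈ univ.filter
      (fun M : Finset (Fin n) => M.card = k + 1 ∧ j ∈ M), lam M j) :
    ‖∑ s, ∑ f ∈ univ.filter (fun f => f ∉ Ss n k R),
      (Fintype.card Ω : ℂ)⁻¹ • (star (Y s f) * Y s f)‖ ≤ κ + (n : ℝ) ^ (k + 1) * ε := by
  have hN : (Fintype.card Ω : ℂ) ≠ 0 := by exact_mod_cast Fintype.card_ne_zero
  have e0 : ∀ s, ∑ f ∈ univ.filter (fun f => f ∉ Ss n k R), (star (Y s f) * Y s f) =
      1 - ∑ M ∈ Ps n k, star (Y s (ind R M)) * Y s (ind R M) := by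
    intro s
    rw [← h1 s, sum_split k R (fun f => star (Y s f) * Y s f),
      sum_Ss k R hR (fun f => star (Y s f) * Y s f)]
    abel
  have e1 : ∑ s, ∑ f ∈ univ.filter (fun f => f ∉ Ss n k R),
      (Fintype.card Ω : ℂ)⁻¹ • (star (Y s f) * Y s f) =
      1 - ∑ M ∈ Ps n k, fav Ω (fun s => star (Y s (ind R M)) * Y s (ind R M)) := by
    simp only [← Finset.smul_sum, e0, fav]
    rw [Finset.sum_sub_distrib, Finset.sum_const, Finset.card_univ, smul_sub,
      ← Nat.cast_smul_eq_nsmul ℂ, smul_smul, inv_mul_cancel₀ hN, one_smul, Finset.sum_comm]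
  have e2 : (1 : CStarMatrix (Fin n) (Fin n) B) -
      ∑ M ∈ Ps n k, dgc B (fun j => if j ∈ M then lam M j else 0) =
      dgc B (fun j => 1 - ∑ M ∈ univ.filter
        (fun M : Finset (Fin n) => M.card = k + 1 ∧ j ∈ M), lam M j) := by
    rw [dgc_sum, ← dgc_one B, dgc_sub]
    congr 1
    funext j
    rw [← Finset.sum_filter, Ps, Finset.filter_filter]
  have e3 : ‖(1 : CStarMatrix (Fin n) (Fin n) B) -
      ∑ M ∈ Ps n k, dgc B (fun j => if j ∈ M then lam M j else 0)‖ ≤ κ := by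
    rw [e2]
    refine norm_dgc_le B _ κ hκ fun j => ?_
    rw [abs_of_nonneg (by linarith [hG3 j])]
    linarith [hG4 j]
  have e4 : ‖∑ M ∈ Ps n k, (fav Ω (fun s => star (Y s (ind R M)) * Y s (ind R M)) -
        dgc B (fun j => if j ∈ M then lam M j else 0))‖ ≤ (n : ℝ) ^ (k + 1) * ε := by
    refine (norm_sum_le _ _).trans ?_
    calc ∑ M ∈ Ps n k, ‖fav Ω (fun s => star (Y s (ind R M)) * Y s (ind R M)) -
        dgc B (fun j => if j ∈ M then lam M j else 0)‖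
        ≤ ∑ M ∈ Ps n k, ε := Finset.sum_le_sum fun M hM => hG2 M (by
          simpa [Ps] using hM)
      _ = ((Ps n k).card : ℝ) * ε := by rw [Finset.sum_const, nsmul_eq_mul]
      _ ≤ (n : ℝ) ^ (k + 1) * ε := by
          gcongr
          exact card_le n k
  rw [e1]
  calc ‖(1 : CStarMatrix (Fin n) (Fin n) B) -
        ∑ M ∈ Ps n k, fav Ω (fun s => star (Y s (ind R M)) * Y s (ind R M))‖
      = ‖(1 - ∑ M ∈ Ps n k, dgc B (fun j => if j ∈ M then lam M j else 0)) -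
          ∑ M ∈ Ps n k, (fav Ω (fun s => star (Y s (ind R M)) * Y s (ind R M)) -
            dgc B (fun j => if j ∈ M then lam M j else 0))‖ := by
        rw [Finset.sum_sub_distrib]
        congr 1
        abel
    _ ≤ κ + (n : ℝ) ^ (k + 1) * ε := (norm_sub_le _ _).trans (add_le_add e3 e4)

theorem step2 (h1 : T2_col.{u, v}) (h2 : T2_dix.{u, v}) (h4 : K_fourier.{u})
    (w : B →ₗ[ℂ] (K →L[ℂ] K)) (τ : B →ₗ[ℂ] ℂ) (hw : IsHom w)
    (hτ : IsTracialState τ) (hD : HasDixmier τ) (c γn : ℝ) (hc : 0 ≤ c) (hγn : 0 ≤ γn)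
    (hwc : ∀ b, ‖w b‖ ≤ c * ‖b‖) (hn : 0 < n) (hLn : LvlBd w n γn) (R k : ℕ) [NeZero R]
    (hR : k + 1 < R) (Ω : Type) [Fintype Ω] [Nonempty Ω] (G : Ω → Fin n → unitary B)
    (x y : CStarMatrix (Fin n) (Fin n) B) (hx : x ∈ unitary (CStarMatrix (Fin n) (Fin n) B))
    (hy : y ∈ unitary (CStarMatrix (Fin n) (Fin n) B))
    (ε κ : ℝ) (hε : 0 < ε) (hκ : 0 ≤ κ) (lam : Finset (Fin n) → Fin n → ℝ)
    (hG2 : ∀ M : Finset (Fin n), M.card = k + 1 →
      ‖fav Ω (fun s => star (Yf x (G s) R k (ind R M)) * Yf x (G s) R k (ind R M)) -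
        dgc B (fun j => if j ∈ M then lam M j else 0)‖ ≤ ε)
    (hG3 : ∀ j, ∑ M ∈ univ.filter (fun M : Finset (Fin n) => M.card = k + 1 ∧ j ∈ M),
      lam M j ≤ 1)
    (hG4 : ∀ j, 1 - κ ≤ ∑ M ∈ univ.filter
      (fun M : Finset (Fin n) => M.card = k + 1 ∧ j ∈ M), lam M j)
    (θ : HH (Fin n) K) :
    ∑ s, ∑ f ∈ univ.filter (fun f => f ∉ Ss n k R),
      ‖amp w (Fin n) (y * Yf x (G s) R k f) θ‖ ^ 2 ≤
      (Fintype.card Ω : ℝ) * (6 * c ^ 2 * γn ^ 2 * (κ + (n : ℝ) ^ (k + 1) * ε) * ‖θ‖ ^ 2) := by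
  have hN : (0 : ℝ) < Fintype.card Ω := by exact_mod_cast Fintype.card_pos
  have : Nonempty (Fin n) := ⟨⟨0, hn⟩⟩
  obtain ⟨hH, hT, hF⟩ := h2 B K w τ hw hτ hD c hc hwc (Fin n)
  have hcol := (h1 (CStarMatrix (Fin n) (Fin n) B) (HH (Fin n) K) (amp w (Fin n)) (ntr τ (Fin n))
    hH hT c γn hc hγn hF hLn (Ω × (Fin n → ZMod R))
    (fun p => if p.2 ∈ Ss n k R then 0 else
      (((Real.sqrt (Fintype.card Ω : ℕ))⁻¹ : ℝ) : ℂ) • (y * Yf x (G p.1) R k p.2))).1 θ
  have eL : ∑ p : Ω × (Fin n → ZMod R), ‖amp w (Fin n) (if p.2 ∈ Ss n k R then 0 else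
      (((Real.sqrt (Fintype.card Ω : ℕ))⁻¹ : ℝ) : ℂ) • (y * Yf x (G p.1) R k p.2)) θ‖ ^ 2 =
      (Fintype.card Ω : ℝ)⁻¹ * ∑ s, ∑ f ∈ univ.filter (fun f => f ∉ Ss n k R),
      ‖amp w (Fin n) (y * Yf x (G s) R k f) θ‖ ^ 2 := by
    rw [Fintype.sum_prod_type, Finset.mul_sum]
    refine Finset.sum_congr rfl fun s _ => ?_
    rw [Finset.mul_sum, Finset.sum_filter]
    refine Finset.sum_congr rfl fun f _ => ?_
    by_cases hf : f ∈ Ss n k R
    · simp [hf]
    · simp only [hf, if_false, not_false_eq_true, if_true]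
      exact amp_smul_norm_sq _ _ _ _
  have eR : ∑ p : Ω × (Fin n → ZMod R), star (if p.2 ∈ Ss n k R then 0 else
      (((Real.sqrt (Fintype.card Ω : ℕ))⁻¹ : ℝ) : ℂ) • (y * Yf x (G p.1) R k p.2)) *
      (if p.2 ∈ Ss n k R then 0 else
      (((Real.sqrt (Fintype.card Ω : ℕ))⁻¹ : ℝ) : ℂ) • (y * Yf x (G p.1) R k p.2)) =
      ∑ s, ∑ f ∈ univ.filter (fun f => f ∉ Ss n k R),
        (Fintype.card Ω : ℂ)⁻¹ • (star (Yf x (G s) R k f) * Yf x (G s) R k f) := by
    rw [Fintype.sum_prod_type]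
    refine Finset.sum_congr rfl fun s _ => ?_
    rw [Finset.sum_filter]
    refine Finset.sum_congr rfl fun f _ => ?_
    by_cases hf : f ∈ Ss n k R
    · simp [hf]
    · simp only [hf, if_false, not_false_eq_true, if_true]
      exact star_smul_mul _ _ _ hy
  rw [eL, eR, inv_mul_le_iff₀ hN] at hcol
  refine hcol.trans ?_
  have hrest := norm_rest k R (by omega) Ω (fun s f => Yf x (G s) R k f)
    (fun s => (h4 B (Fin n) R x (G s) k).2 hx) ε κ hε hκ lam hG2 hG3 hG4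
  gcongr

end steps

end A21

theorem prove3_generic (h1 : T2_col.{u, v}) (h2 : T2_dix.{u, v}) (h3 : K_wcol.{u, v}) (h4 : K_fourier.{u})
    (h5 : K_pars.{v}) : K_generic.{u, v} := by
  intro B _ _ _ K _ _ _ w τ hw hτ hD c γ γn hc hγ hγn hwc L n hn hL hLn R k _ hk hR Ω _ _ G x y
    hx hy ε κ hε hκ hG θ
  obtain ⟨lam, hl0, hG2, hG3, hG4⟩ := hG
  -- Parseval
  have e0 : ∀ s, ∑ ω : Fin n → ZMod R, ‖amp w (Fin n) (y * Tw x (G s) ω k) θ‖ ^ 2 =
      (Fintype.card (Fin n → ZMod R) : ℝ) *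
        ∑ f, ‖amp w (Fin n) (y * Yf x (G s) R k f) θ‖ ^ 2 := by
    intro s
    rw [← h5 (Fin n) R (HH (Fin n) K) (fun f => amp w (Fin n) (y * Yf x (G s) R k f) θ)]
    refine Finset.sum_congr rfl fun ω _ => ?_
    rw [(h4 B (Fin n) R x (G s) k).1 ω, Finset.mul_sum, map_sum, _root_.sum_apply]
    congr 2
    refine Finset.sum_congr rfl fun f _ => ?_
    rw [mul_smul_comm, map_smul, smul_apply]
  have e1 : ∑ s, ∑ ω : Fin n → ZMod R, ‖amp w (Fin n) (y * Tw x (G s) ω k) θ‖ ^ 2 =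
      (Fintype.card (Fin n → ZMod R) : ℝ) *
        (∑ M ∈ A21.Ps n k, ∑ s, ‖amp w (Fin n) (y * Yf x (G s) R k (ind R M)) θ‖ ^ 2 +
          ∑ s, ∑ f ∈ univ.filter (fun f => f ∉ A21.Ss n k R),
            ‖amp w (Fin n) (y * Yf x (G s) R k f) θ‖ ^ 2) := by
    simp only [e0]
    rw [← Finset.mul_sum]
    congr 1
    rw [Finset.sum_comm (s := A21.Ps n k), ← Finset.sum_add_distrib]
    refine Finset.sum_congr rfl fun s _ => ?_
    rw [A21.sum_split k R, A21.sum_Ss k R (by omega)]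
  have e2 : ∑ M ∈ A21.Ps n k, ∑ s, ‖amp w (Fin n) (y * Yf x (G s) R k (ind R M)) θ‖ ^ 2 ≤
      (Fintype.card Ω : ℝ) * (6 * c ^ 2 * γ ^ 2 * ((1 + (n : ℝ) ^ (k + 1) * ε) * ‖θ‖ ^ 2)) := by
    calc ∑ M ∈ A21.Ps n k, ∑ s, ‖amp w (Fin n) (y * Yf x (G s) R k (ind R M)) θ‖ ^ 2
        ≤ ∑ M ∈ A21.Ps n k, (Fintype.card Ω : ℝ) *
          (6 * c ^ 2 * γ ^ 2 * ∑ j ∈ M, (lam M j + ε) * ‖θ j‖ ^ 2) := by
          refine Finset.sum_le_sum fun M hM => ?_
          have hM' : M.card = k + 1 := by simpa [A21.Ps] using hM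
          exact A21.step1 h3 w τ hw hτ hD c γ hc hγ hwc L hL R k hk hR Ω G x y hy ε hε (lam M)
            (hl0 M) M hM' (hG2 M hM') θ
      _ = (Fintype.card Ω : ℝ) * (6 * c ^ 2 * γ ^ 2 *
          ∑ M ∈ A21.Ps n k, ∑ j ∈ M, (lam M j + ε) * ‖θ j‖ ^ 2) := by
          simp only [← Finset.mul_sum]
      _ ≤ _ := by
          have hs : ∑ M ∈ A21.Ps n k, ∑ j ∈ M, (lam M j + ε) * ‖θ j‖ ^ 2 ≤
              (1 + (n : ℝ) ^ (k + 1) * ε) * ‖θ‖ ^ 2 := by
            have hsw : ∑ M ∈ A21.Ps n k, ∑ j ∈ M, (lam M j + ε) * ‖θ j‖ ^ 2 =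
                ∑ j : Fin n, ∑ M ∈ univ.filter
                  (fun M : Finset (Fin n) => M.card = k + 1 ∧ j ∈ M),
                  (lam M j + ε) * ‖θ j‖ ^ 2 := by
              refine Finset.sum_comm' ?_
              intro M j
              simp [A21.Ps]
            rw [hsw, PiLp.norm_sq_eq_of_L2, Finset.mul_sum]
            refine Finset.sum_le_sum fun j _ => ?_
            rw [← Finset.sum_mul]
            refine mul_le_mul_of_nonneg_right ?_ (by positivity)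
            rw [Finset.sum_add_distrib, Finset.sum_const, nsmul_eq_mul]
            refine add_le_add (hG3 j) ?_
            refine mul_le_mul_of_nonneg_right ?_ hε.le
            refine le_trans ?_ (A21.card_le n k)
            exact_mod_cast Finset.card_le_card (fun M hM => by
              simp only [Finset.mem_filter, Finset.mem_univ, true_and] at hM ⊢
              exact hM.1)
          gcongr
  have e3 := A21.step2 h1 h2 h4 w τ hw hτ hD c γn hc hγn hwc hn hLn R k hR Ω G x y hx hy ε κ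
    hε hκ lam hG2 hG3 hG4 θ
  rw [e1]
  calc (Fintype.card (Fin n → ZMod R) : ℝ) *
        (∑ M ∈ A21.Ps n k, ∑ s, ‖amp w (Fin n) (y * Yf x (G s) R k (ind R M)) θ‖ ^ 2 +
          ∑ s, ∑ f ∈ univ.filter (fun f => f ∉ A21.Ss n k R),
            ‖amp w (Fin n) (y * Yf x (G s) R k f) θ‖ ^ 2)
      ≤ (Fintype.card (Fin n → ZMod R) : ℝ) *
        ((Fintype.card Ω : ℝ) * (6 * c ^ 2 * γ ^ 2 * ((1 + (n : ℝ) ^ (k + 1) * ε) * ‖θ‖ ^ 2)) +
          (Fintype.card Ω : ℝ) * (6 * c ^ 2 * γn ^ 2 * (κ + (n : ℝ) ^ (k + 1) * ε) *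
            ‖θ‖ ^ 2)) := by
        gcongr
    _ = _ := by ring

end H759R2.Kad
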